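import Pool.Agent.H41.AL.Defs

set_option autoImplicit false

open Finset Pool.Agent.H41.AL

namespace Pool.Agent.H807.AL

theorem step (hr : S_STEPR) (hc : S_STEPC) (hq : S_STEPQ) : S_STEP := by
  intro n L M g W A lam hL hM hW hA h0 h1
  have habs : |lam| * (5 * A ^ 2) ≤ 1 := by rwa [abs_of_nonneg h0]
  have hneg : |(-lam)| * (5 * A ^ 2) ≤ 1 := by rwa [abs_neg]
  have R : ∀ j, ∑ k, (Real.exp (lam * (rowS (upd M k g W) j - n)) +
      Real.exp (-lam * (rowS (upd M k g W) j - n))) ≤
      L * (Real.exp (25 * lam ^ 2 * A ^ 4) * (Real.exp (lam * (rowS W j - n)) +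
        Real.exp (-lam * (rowS W j - n)))) := by
    intro j
    have a1 := hr n L M g W A lam j hL hM hW hA habs
    have a2 := hr n L M g W A (-lam) j hL hM hW hA hneg
    rw [neg_sq] at a2
    rw [sum_add_distrib]
    calc _ ≤ _ := add_le_add a1 a2
      _ = _ := by ring
  have C : ∀ c, ∑ k, (Real.exp (lam * (colS (upd M k g W) c - n)) +
      Real.exp (-lam * (colS (upd M k g W) c - n))) ≤
      L * (Real.exp (25 * lam ^ 2 * A ^ 4) * (Real.exp (lam * (colS W c - n)) +
        Real.exp (-lam * (colS W c - n)))) := by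
    intro j
    have a1 := hc n L M g W A lam j hL hM hW hA habs
    have a2 := hc n L M g W A (-lam) j hL hM hW hA hneg
    rw [neg_sq] at a2
    rw [sum_add_distrib]
    calc _ ≤ _ := add_le_add a1 a2
      _ = _ := by ring
  have Q : ∀ j j', ∑ k, (if j = j' then 0 else
      Real.exp (lam * (cod (upd M k g W) j j' - n))) ≤
      L * (Real.exp (25 * lam ^ 2 * A ^ 4) * (if j = j' then 0 else
        Real.exp (lam * (cod W j j' - n)))) := by
    intro j j'
    by_cases h : j = j'
    · simp [h]
    · simp only [if_neg h]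
      exact hq n L M g W A lam j j' hL hM hW hA h0 h1 h
  unfold Psi
  rw [sum_add_distrib, sum_add_distrib, sum_comm, mul_add, mul_add, mul_add, mul_add]
  refine add_le_add (add_le_add ?_ ?_) ?_
  · rw [mul_sum, mul_sum]
    exact sum_le_sum fun j _ => R j
  · rw [sum_comm, mul_sum, mul_sum]
    exact sum_le_sum fun j _ => C j
  · rw [sum_comm, mul_sum, mul_sum]
    refine sum_le_sum fun j _ => ?_
    rw [sum_comm, mul_sum, mul_sum]
    exact sum_le_sum fun j' _ => Q j j'

end Pool.Agent.H807.AL

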